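import Mathlib
import Pool.Agent.TH923.DM.Defs

/-!
# The derivation `d / dT` on a finite separable extension of `k(T)` and its kernel (job DM-DER)
-/

set_option autoImplicit false

namespace Pool.Agent.TH397.DM

open Polynomial

universe w

/-- lifting of the structure homomorphism of a formally smooth algebra -/
lemma exists_lift {K L B : Type*} [CommRing K] [CommRing L] [Algebra K L]
    [Algebra.FormallySmooth K L] [CommRing B] (φ : K →+* B) (g : B →+* L)
    (hg : Function.Surjective g) (hn : IsNilpotent (RingHom.ker g))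
    (hc : g.comp φ = algebraMap K L) :
    ∃ ψ : L →+* B, g.comp ψ = RingHom.id L ∧ ψ.comp (algebraMap K L) = φ := by
  let _ : Algebra K B := φ.toAlgebra
  let g' : B →ₐ[K] L := { g with commutes' := fun r => RingHom.congr_fun hc r }
  have hg' : Function.Surjective g' := hg
  have hn' : IsNilpotent (RingHom.ker (g' : B →+* L)) := hn
  refine ⟨(Algebra.FormallySmooth.liftOfSurjective (AlgHom.id K L) g' hg' hn' : L →+* B), ?_, ?_⟩
  · ext x
    exact Algebra.FormallySmooth.liftOfSurjective_apply (AlgHom.id K L) g' hg' hn' x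
  · ext x
    exact AlgHom.commutes (Algebra.FormallySmooth.liftOfSurjective (AlgHom.id K L) g' hg' hn') x

/-- derivations extend to finite separable extensions -/
lemma exists_ext {K L : Type*} [Field K] [Field L] [Algebra K L] [Algebra.IsSeparable K L]
    (d : K →+ K) (hd : ∀ a b, d (a * b) = a * d b + b * d a) :
    ∃ D : Derivation ℤ L L, ∀ f : K, D (algebraMap K L f) = algebraMap K L (d f) := by
  have hd1 : d 1 = 0 := by
    have := hd 1 1
    simp only [one_mul] at this
    exact left_eq_add.1 this
  have : Algebra.FormallyEtale K L := Algebra.FormallyEtale.of_isSeparable K L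
  have : Algebra.FormallySmooth K L := inferInstance
  let φ : K →+* TrivSqZeroExt L L :=
    { toFun := fun f => TrivSqZeroExt.inl (algebraMap K L f) + TrivSqZeroExt.inr (algebraMap K L (d f))
      map_one' := by
        ext
        · simp only [TrivSqZeroExt.fst_add, TrivSqZeroExt.fst_inl, TrivSqZeroExt.fst_inr, map_one,
            add_zero, TrivSqZeroExt.fst_one]
        · simp only [TrivSqZeroExt.snd_add, TrivSqZeroExt.snd_inl, TrivSqZeroExt.snd_inr,
            hd1, map_zero, add_zero, TrivSqZeroExt.snd_one]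
      map_mul' := by
        intro a b
        ext
        · simp only [TrivSqZeroExt.fst_add, TrivSqZeroExt.fst_inl, TrivSqZeroExt.fst_inr, map_mul,
            add_zero, TrivSqZeroExt.fst_mul]
        · simp only [TrivSqZeroExt.fst_add, TrivSqZeroExt.fst_inl, TrivSqZeroExt.fst_inr, map_mul,
            add_zero, TrivSqZeroExt.snd_mul, TrivSqZeroExt.snd_add, TrivSqZeroExt.snd_inl,
            TrivSqZeroExt.snd_inr, hd, smul_eq_mul, map_add, zero_add,
            MulOpposite.smul_eq_mul_unop, MulOpposite.unop_op]
          ring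
      map_zero' := by
        ext
        · simp only [TrivSqZeroExt.fst_add, TrivSqZeroExt.fst_inl, TrivSqZeroExt.fst_inr, map_zero,
            add_zero, TrivSqZeroExt.fst_zero]
        · simp only [TrivSqZeroExt.snd_add, TrivSqZeroExt.snd_inl, TrivSqZeroExt.snd_inr, map_zero,
            add_zero, TrivSqZeroExt.snd_zero]
      map_add' := by
        intro a b
        ext
        · simp only [TrivSqZeroExt.fst_add, TrivSqZeroExt.fst_inl, TrivSqZeroExt.fst_inr, map_add,
            add_zero]
        · simp only [TrivSqZeroExt.snd_add, TrivSqZeroExt.snd_inl, TrivSqZeroExt.snd_inr, map_add,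
            zero_add] }
  let g : TrivSqZeroExt L L →+* L := (TrivSqZeroExt.fstHom L L L : TrivSqZeroExt L L →+* L)
  have hgs : Function.Surjective g := fun x => ⟨TrivSqZeroExt.inl x, rfl⟩
  have hmul : RingHom.ker g * RingHom.ker g = 0 := by
    refine le_antisymm ?_ bot_le
    rw [Ideal.mul_le]
    intro r hr s hs
    have hr' : r.fst = 0 := hr
    have hs' : s.fst = 0 := hs
    have : r * s = 0 := by
      ext
      · simp only [TrivSqZeroExt.fst_mul, hr', zero_mul, TrivSqZeroExt.fst_zero]
      · simp only [TrivSqZeroExt.snd_mul, hr', hs', zero_smul, MulOpposite.op_zero, add_zero,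
          TrivSqZeroExt.snd_zero]
    rw [this]
    exact Ideal.zero_mem _
  have hn : IsNilpotent (RingHom.ker g) := ⟨2, (pow_two (RingHom.ker g)).trans hmul⟩
  have hcomp : g.comp φ = algebraMap K L := by
    ext x
    change (TrivSqZeroExt.inl (algebraMap K L x) + TrivSqZeroExt.inr (algebraMap K L (d x)) :
      TrivSqZeroExt L L).fst = _
    simp only [TrivSqZeroExt.fst_add, TrivSqZeroExt.fst_inl, TrivSqZeroExt.fst_inr, add_zero]
  obtain ⟨ψ, h1, h2⟩ := exists_lift φ g hgs hn hcomp
  have hf : ∀ x, (ψ x).fst = x := fun x => RingHom.congr_fun h1 x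
  refine ⟨Derivation.mk' (((TrivSqZeroExt.sndHom L L).toAddMonoidHom.comp
    ψ.toAddMonoidHom).toIntLinearMap) ?_, ?_⟩
  · intro a b
    change (ψ (a * b)).snd = a • (ψ b).snd + b • (ψ a).snd
    rw [map_mul, TrivSqZeroExt.snd_mul, hf, hf]
    simp only [smul_eq_mul, MulOpposite.smul_eq_mul_unop, MulOpposite.unop_op]
    ring
  · intro f
    have h3 : ψ (algebraMap K L f) = φ f := RingHom.congr_fun h2 f
    change (ψ (algebraMap K L f)).snd = _
    rw [h3]
    change (TrivSqZeroExt.inl (algebraMap K L f) + TrivSqZeroExt.inr (algebraMap K L (d f)) :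
      TrivSqZeroExt L L).snd = _
    simp only [TrivSqZeroExt.snd_add, TrivSqZeroExt.snd_inl, TrivSqZeroExt.snd_inr, zero_add]

section Kernel

variable {L : Type*} [Field L] {p : ℕ} [Fact p.Prime] [CharP L p] (D : Derivation ℤ L L)

lemma D_pow_p (b : L) : D (b ^ p) = 0 := by
  rw [Derivation.leibniz_pow]
  simp

lemma D_eval {T : L} (hT : D T = 1) (q : L[X]) (hq : ∀ i, D (q.coeff i) = 0) :
    D (q.eval T) = (derivative q).eval T := by
  rw [Polynomial.eval_eq_sum_range, map_sum, Polynomial.derivative_eval, Polynomial.sum_over_range]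
  · refine Finset.sum_congr rfl fun i _ => ?_
    rw [Derivation.leibniz, hq i, Derivation.leibniz_pow, hT]
    simp [mul_assoc]
  · intro i
    simp

lemma coeff_zero_of_eval {T : L} (hT : D T = 1) :
    ∀ (n : ℕ) (q : L[X]), q.natDegree = n → n < p → (∀ i, D (q.coeff i) = 0) → q.eval T = 0 →
      q = 0 := by
  intro n
  induction n using Nat.strong_induction_on with
  | _ n ih =>
    intro q hn hp hq h0
    rcases Nat.eq_zero_or_pos n with h | h
    · subst h
      rw [Polynomial.eq_C_of_natDegree_eq_zero hn] at h0 ⊢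
      simp only [Polynomial.eval_C] at h0
      rw [h0, map_zero]
    · exfalso
      have h1 : (derivative q).eval T = 0 := by
        rw [← D_eval D hT q hq, h0, map_zero]
      have h2 : (derivative q).natDegree < n := by
        rw [← hn]
        exact Polynomial.natDegree_derivative_lt (by omega)
      have h3 : ∀ i, D ((derivative q).coeff i) = 0 := by
        intro i
        rw [Polynomial.coeff_derivative, Derivation.leibniz, hq (i + 1)]
        have : ((i : L) + 1) = ((i + 1 : ℕ) : L) := by push_cast; ring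
        rw [this, Derivation.map_natCast]
        simp
      have h4 := ih _ h2 (derivative q) rfl (by omega) h3 h1
      have h5 : (derivative q).coeff (n - 1) = 0 := by rw [h4]; simp
      rw [Polynomial.coeff_derivative] at h5
      have h6 : n - 1 + 1 = n := by omega
      have h7 : (((n - 1 : ℕ) : L) + 1) = ((n : ℕ) : L) := by
        have : ((n - 1 + 1 : ℕ) : L) = (n : L) := by rw [h6]
        rw [← this]
        push_cast
        ring
      rw [h6, h7] at h5
      rcases mul_eq_zero.1 h5 with h8 | h8
      · rw [← hn, Polynomial.coeff_natDegree, Polynomial.leadingCoeff_eq_zero] at h8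
        rw [h8] at hn
        simp at hn
        omega
      · rw [CharP.cast_eq_zero_iff L p] at h8
        exact absurd (Nat.le_of_dvd h h8) (by omega)

/-- `x` is a polynomial of degree `< p` in `T` with coefficients in `L ^ p` -/
def PP (p : ℕ) (T x : L) : Prop := ∃ b : ℕ → L, x = ∑ i ∈ Finset.range p, b i ^ p * T ^ i

lemma PP_add {T x y : L} (hx : PP p T x) (hy : PP p T y) : PP p T (x + y) := by
  obtain ⟨b, rfl⟩ := hx
  obtain ⟨c, rfl⟩ := hy
  refine ⟨fun i => b i + c i, ?_⟩
  rw [← Finset.sum_add_distrib]
  refine Finset.sum_congr rfl fun i _ => ?_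
  rw [add_pow_char, add_mul]

lemma PP_mul {T x : L} (y : L) (hx : PP p T x) : PP p T (y ^ p * x) := by
  obtain ⟨b, rfl⟩ := hx
  refine ⟨fun i => y * b i, ?_⟩
  rw [Finset.mul_sum]
  refine Finset.sum_congr rfl fun i _ => ?_
  rw [mul_pow, mul_assoc]

lemma PP_zero {T : L} : PP p T 0 := by
  refine ⟨fun _ => 0, ?_⟩
  have : p ≠ 0 := (Fact.out : p.Prime).ne_zero
  simp [this]

lemma PP_sum {T : L} {ι : Type*} (s : Finset ι) (f : ι → L) (h : ∀ i ∈ s, PP p T (f i)) :
    PP p T (∑ i ∈ s, f i) := by
  classical
  induction s using Finset.induction_on with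
  | empty => simpa using PP_zero
  | insert a s ha ih =>
    rw [Finset.sum_insert ha]
    exact PP_add (h a (Finset.mem_insert_self a s)) (ih fun i hi => h i (Finset.mem_insert_of_mem hi))

lemma PP_pow_mul {T : L} (c : L) (n : ℕ) : PP p T (c ^ p * T ^ n) := by
  have hp : 0 < p := (Fact.out : p.Prime).pos
  refine ⟨fun i => if i = n % p then c * T ^ (n / p) else 0, ?_⟩
  rw [Finset.sum_eq_single (n % p)]
  · simp only [if_true]
    rw [mul_pow, ← pow_mul, mul_assoc, ← pow_add]
    congr 2
    rw [mul_comm]
    exact (Nat.div_add_mod n p).symm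
  · intro i _ hi
    simp only [if_neg hi]
    simp [hp.ne']
  · intro h
    exact absurd (Finset.mem_range.2 (Nat.mod_lt n hp)) h

lemma pow_of_PP {T x : L} (hT : D T = 1) (hx : PP p T x) (h0 : D x = 0) : ∃ y, y ^ p = x := by
  obtain ⟨b, rfl⟩ := hx
  have hp : 0 < p := (Fact.out : p.Prime).pos
  set q : L[X] := ∑ i ∈ Finset.range p, C (b i ^ p) * X ^ i with hq
  have hqe : q.eval T = ∑ i ∈ Finset.range p, b i ^ p * T ^ i := by
    rw [hq, Polynomial.eval_finset_sum]
    simp
  have hqc : ∀ i, q.coeff i = if i < p then b i ^ p else 0 := by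
    intro i
    rw [hq, Polynomial.finset_sum_coeff]
    simp only [Polynomial.coeff_C_mul, Polynomial.coeff_X_pow]
    split_ifs with h
    · rw [Finset.sum_eq_single i]
      · simp
      · intro j _ hj
        simp [hj.symm]
      · intro h'
        exact absurd (Finset.mem_range.2 h) h'
    · apply Finset.sum_eq_zero
      intro j hj
      have : i ≠ j := by
        rintro rfl
        exact h (Finset.mem_range.1 hj)
      simp [this]
  have hqD : ∀ i, D (q.coeff i) = 0 := by
    intro i
    rw [hqc]
    split_ifs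
    · exact D_pow_p D (b i)
    · exact map_zero D
  have h1 : (derivative q).eval T = 0 := by
    rw [← D_eval D hT q hqD, hqe, h0]
  have hdeg : q.natDegree ≤ p - 1 :=
    Polynomial.natDegree_le_iff_coeff_eq_zero.2 (fun i hi => by rw [hqc, if_neg (by omega)])
  have h2 : (derivative q).natDegree < p := lt_of_le_of_lt (Polynomial.natDegree_derivative_le q)
    (by omega)
  have h3 : ∀ i, D ((derivative q).coeff i) = 0 := by
    intro i
    rw [Polynomial.coeff_derivative, Derivation.leibniz, hqD (i + 1)]
    have : ((i : L) + 1) = ((i + 1 : ℕ) : L) := by push_cast; ring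
    rw [this, Derivation.map_natCast]
    simp
  have h4 := coeff_zero_of_eval D hT _ (derivative q) rfl h2 h3 h1
  refine ⟨b 0, ?_⟩
  rw [← hqe, Polynomial.eval_eq_sum_range]
  rw [Finset.sum_eq_single 0]
  · rw [hqc, if_pos hp]
    simp
  · intro i hi hi0
    have h5 : (derivative q).coeff (i - 1) = 0 := by rw [h4]; simp
    rw [Polynomial.coeff_derivative] at h5
    have h6 : i - 1 + 1 = i := by omega
    have h7 : (((i - 1 : ℕ) : L) + 1) = ((i : ℕ) : L) := by
      have : ((i - 1 + 1 : ℕ) : L) = (i : L) := by rw [h6]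
      rw [← this]
      push_cast
      ring
    rw [h6, h7] at h5
    rcases mul_eq_zero.1 h5 with h8 | h8
    · rw [h8, zero_mul]
    · exfalso
      rw [CharP.cast_eq_zero_iff L p] at h8
      have := Nat.le_of_dvd (by omega) h8
      have := Finset.mem_range.1 hi
      omega
  · intro h
    exact absurd (Finset.mem_range.2 (by omega)) h

end Kernel

/-- elements of `k(T)` are polynomials of degree `< p` in `T` with coefficients `p`-th powers -/
lemma PP_rat {p : ℕ} [Fact p.Prime] {k : Type*} [Field k] [IsAlgClosed k] [CharP k p]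
    {L : Type*} [Field L] [CharP L p] [Algebra (RatFunc k) L] (f : RatFunc k) :
    PP p (algebraMap (RatFunc k) L RatFunc.X) (algebraMap (RatFunc k) L f) := by
  have hp : 0 < p := (Fact.out : p.Prime).pos
  have hpoly : ∀ a : k[X], PP p (algebraMap (RatFunc k) L RatFunc.X)
      (algebraMap (RatFunc k) L (algebraMap k[X] (RatFunc k) a)) := by
    intro a
    rw [Polynomial.as_sum_range_C_mul_X_pow a, map_sum, map_sum]
    refine PP_sum _ _ fun i _ => ?_
    obtain ⟨c, hc⟩ := IsAlgClosed.exists_pow_nat_eq (a.coeff i) hp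
    rw [← hc]
    simp only [map_mul, map_pow, RatFunc.algebraMap_X]
    exact PP_pow_mul _ _
  obtain ⟨a, b, hb, rfl⟩ := Pool.Agent.TH923.Y0.exists_mk f
  have hb' : algebraMap k[X] (RatFunc k) b ≠ 0 := RatFunc.algebraMap_ne_zero hb
  have h1 : algebraMap k[X] (RatFunc k) a / algebraMap k[X] (RatFunc k) b =
      ((algebraMap k[X] (RatFunc k) b)⁻¹) ^ p * algebraMap k[X] (RatFunc k) (a * b ^ (p - 1)) := by
    rw [map_mul, map_pow]
    have h2 : algebraMap k[X] (RatFunc k) b ^ p =
        algebraMap k[X] (RatFunc k) b ^ (p - 1) * algebraMap k[X] (RatFunc k) b := by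
      rw [← pow_succ, Nat.sub_add_cancel hp]
    rw [inv_pow, h2]
    field_simp
  rw [h1, map_mul, map_pow]
  exact PP_mul _ (hpoly _)

/-- elements of a separable algebraic extension -/
lemma PP_all {p : ℕ} [Fact p.Prime] {k : Type*} [Field k] [IsAlgClosed k] [CharP k p]
    {L : Type*} [Field L] [CharP L p] [Algebra (RatFunc k) L] [Algebra.IsSeparable (RatFunc k) L]
    [CharP (RatFunc k) p] (x : L) :
    PP p (algebraMap (RatFunc k) L RatFunc.X) x := by
  have : ExpChar (RatFunc k) p := ExpChar.prime Fact.out
  have h1 := IntermediateField.adjoin_simple_eq_adjoin_pow_expChar_of_isSeparable'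
    (RatFunc k) L x p
  have h2 : x ∈ IntermediateField.adjoin (RatFunc k) {x} :=
    IntermediateField.mem_adjoin_simple_self _ x
  rw [h1] at h2
  have hint : IsIntegral (RatFunc k) (x ^ p) := Algebra.IsIntegral.isIntegral _
  have h3 : x ∈ (IntermediateField.adjoin (RatFunc k) {x ^ p}).toSubalgebra := h2
  rw [IntermediateField.adjoin_simple_toSubalgebra_of_isAlgebraic hint.isAlgebraic,
    Algebra.adjoin_singleton_eq_range_aeval] at h3
  obtain ⟨q, hq⟩ := h3
  have hq' : aeval (x ^ p) q = x := hq
  rw [← hq', Polynomial.aeval_eq_sum_range]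
  refine PP_sum _ _ fun i _ => ?_
  rw [Algebra.smul_def, ← pow_mul, mul_comm p i, pow_mul, mul_comm]
  exact PP_mul _ (PP_rat _)

theorem lemDER : Pool.Agent.TH923.DM.S_DER.{w} := by
  intro p _ k _ _ _ L _ _ _ _
  have : CharP (RatFunc k) p := by
    exact charP_of_injective_algebraMap (algebraMap k (RatFunc k)).injective p
  have : CharP L p := charP_of_injective_algebraMap (algebraMap (RatFunc k) L).injective p
  obtain ⟨D, hD⟩ := exists_ext (K := RatFunc k) (L := L)
    { toFun := Pool.Agent.TH923.Y0.ratD k
      map_zero' := by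
        have h := Pool.Agent.TH923.Y0.ratD_alg (k := k) 0
        simpa using h
      map_add' := Pool.Agent.TH923.Y0.ratD_add } Pool.Agent.TH923.Y0.ratD_mul
  refine ⟨D, hD, ?_⟩
  intro x hx
  refine pow_of_PP D (T := algebraMap (RatFunc k) L RatFunc.X) ?_ (PP_all x) hx
  rw [hD]
  have : Pool.Agent.TH923.Y0.ratD k RatFunc.X = 1 := by
    rw [← RatFunc.algebraMap_X, Pool.Agent.TH923.Y0.ratD_alg]
    simp
  change algebraMap (RatFunc k) L (Pool.Agent.TH923.Y0.ratD k RatFunc.X) = 1
  rw [this, map_one]

end Pool.Agent.TH397.DM
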